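import Pool.Agent.Helper93_ABCT.FinalAsm
import Pool.Agent.Helper93_ABCT.Bridge
import Pool.Agent.Helper32_ABCT.AllII

/-!
# The ABCT varieties `V(k,n)` are positive geometries (MP_a17fcb_ag, Q1)

For all `2 ≤ k ≤ n - 2` the pair `(V(k,n), V(k,n)_{≥0})` is a positive geometry (in the sense of
Arkani-Hamed, Bai and Lam) of dimension `2n - 4`, for some and for every orientation of the
interior of `V(k,n)_{≥0}`. In particular the answer to Q1 (`4 ≤ k ≤ n - 4`) is yes.
-/

open PosGeom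

theorem Pool.Agent.Results.MP_a17fcb_ag.ABCTPositive.result (k n : ℕ) (hk : 2 ≤ k)
    (hkn : k + 2 ≤ n) :
    (∃ σ, PGeo.IsPositiveGeometry (2 * n - 4) (ABCT k n hk (Nat.le_of_add_right_le hkn))
      (ABCTnonneg k n hk (Nat.le_of_add_right_le hkn)) σ) ∧
    ∀ σ, PGeo.Basic (ABCT k n hk (Nat.le_of_add_right_le hkn)) (2 * n - 4)
        (ABCTnonneg k n hk (Nat.le_of_add_right_le hkn)) σ →
      PGeo.IsPositiveGeometry (2 * n - 4) (ABCT k n hk (Nat.le_of_add_right_le hkn))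
        (ABCTnonneg k n hk (Nat.le_of_add_right_le hkn)) σ := by
  exact PGeo.transport _ _ _ (H93.final ABCT.AllII.wf ABCT.AllII.gall ABCT.AllII.ggen
    ABCT.AllII.facet ABCT.AllII.call ABCT.AllII.ball ABCT.AllII.eallS ABCT.AllII.zvtx
    ABCT.AllII.nS ABCT.AllII.closedS ABCT.AllII.lgen k n hk hkn)
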